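import Pool.Agent.Q164.SM.Defs

/-!
The set of strictly monotone closed sublattices is coanalytic in the Wijsman topology.
-/

set_option autoImplicit false
set_option linter.unusedSectionVars false
set_option linter.style.haveILetI false

open Topology MeasureTheory TopologicalSpace

namespace Q164.SM

universe u

variable {E : Type u} [NormedAddCommGroup E] [NormedSpace ℝ E] [Lattice E]
  [HasSolidNorm E] [IsOrderedAddMonoid E] [CompleteSpace E] [SecondCountableTopology E]

/-- the parameter space -/
abbrev W (E : Type u) : Type u := (ℕ → E) × (ℕ → ℝ) × (ℕ → ℕ → ℕ) × (E × E) × ℕ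

/-- the closed set of parameters -/
def Q (E : Type u) [NormedAddCommGroup E] [NormedSpace ℝ E] [Lattice E]
    [SecondCountableTopology E] : Set (W E) :=
  {w | (∀ n k, w.2.1 n ≤ ‖denseSeq E n - w.1 k‖) ∧
    (∀ n i, ‖denseSeq E n - w.1 (w.2.2.1 n i)‖ ≤ w.2.1 n + 1 / ((i : ℝ) + 1)) ∧
    (∀ a b n, w.2.1 n ≤ ‖denseSeq E n - (w.1 a + w.1 b)‖) ∧
    (∀ (c : ℝ) a n, w.2.1 n ≤ ‖denseSeq E n - c • w.1 a‖) ∧
    (∀ a n, w.2.1 n ≤ ‖denseSeq E n - |w.1 a|‖) ∧
    (∀ n, w.2.1 n ≤ ‖denseSeq E n - w.2.2.2.1.1‖) ∧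
    (∀ n, w.2.1 n ≤ ‖denseSeq E n - w.2.2.2.1.2‖) ∧
    0 ≤ w.2.2.2.1.2 ∧ w.2.2.2.1.2 ≤ w.2.2.2.1.1 ∧
    1 / ((w.2.2.2.2 : ℝ) + 1) ≤ ‖w.2.2.2.1.2‖ ∧
    ‖w.2.2.2.1.1‖ ≤ ‖w.2.2.2.1.1 - w.2.2.2.1.2‖}

omit [CompleteSpace E] [SecondCountableTopology E] in
lemma cont_abs : Continuous (fun x : E => |x|) := continuous_id.sup continuous_neg

lemma continuous_eval2 : Continuous (fun w : W E => fun n i => w.1 (w.2.2.1 n i)) := by
  refine continuous_pi fun n => continuous_pi fun i => ?_
  have h1 : Continuous (fun w : W E => w.2.2.1 n i) := by fun_prop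
  rw [continuous_iff_continuousAt]
  intro w
  have h2 : ∀ᶠ w' in 𝓝 w, w'.2.2.1 n i = w.2.2.1 n i := by
    have := h1.continuousAt (x := w)
    have h3 : {w.2.2.1 n i} ∈ 𝓝 (w.2.2.1 n i) := isOpen_discrete _ |>.mem_nhds rfl
    exact this h3
  have h3 : ContinuousAt (fun w' : W E => w'.1 (w.2.2.1 n i)) w := by
    have : Continuous (fun w' : W E => w'.1 (w.2.2.1 n i)) := by fun_prop
    exact this.continuousAt
  refine h3.congr ?_
  filter_upwards [h2] with w' hw'
  rw [hw']

lemma isClosed_Q : IsClosed (Q E) := by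
  have hd : ∀ n, Continuous (fun w : W E => w.2.1 n) := fun n => by fun_prop
  have hz : ∀ n, Continuous (fun w : W E => w.1 n) := fun n => by fun_prop
  have hx : Continuous (fun w : W E => w.2.2.2.1.1) := by fun_prop
  have hy : Continuous (fun w : W E => w.2.2.2.1.2) := by fun_prop
  have hj : Continuous (fun w : W E => (w.2.2.2.2 : ℝ)) := by
    have h1 : Continuous (fun w : W E => w.2.2.2.2) := by fun_prop
    exact (continuous_of_discreteTopology (f := fun n : ℕ => (n : ℝ))).comp h1
  have he : ∀ n i, Continuous (fun w : W E => w.1 (w.2.2.1 n i)) := fun n i =>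
    (continuous_apply i).comp ((continuous_apply n).comp continuous_eval2)
  unfold Q
  simp only [Set.ofPred_and, Set.ofPred_forall]
  refine IsClosed.inter ?_ (IsClosed.inter ?_ (IsClosed.inter ?_ (IsClosed.inter ?_
    (IsClosed.inter ?_ (IsClosed.inter ?_ (IsClosed.inter ?_ (IsClosed.inter ?_ (IsClosed.inter ?_
    (IsClosed.inter ?_ ?_)))))))))
  · refine isClosed_iInter fun n => isClosed_iInter fun k => isClosed_le (hd n) ?_
    exact (continuous_const.sub (hz k)).norm
  · refine isClosed_iInter fun n => isClosed_iInter fun i => isClosed_le ?_ ?_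
    · exact (continuous_const.sub (he n i)).norm
    · exact (hd n).add continuous_const
  · refine isClosed_iInter fun a => isClosed_iInter fun b => isClosed_iInter fun n =>
      isClosed_le (hd n) ?_
    exact (continuous_const.sub ((hz a).add (hz b))).norm
  · refine isClosed_iInter fun c => isClosed_iInter fun a => isClosed_iInter fun n =>
      isClosed_le (hd n) ?_
    exact (continuous_const.sub ((hz a).const_smul c)).norm
  · refine isClosed_iInter fun a => isClosed_iInter fun n => isClosed_le (hd n) ?_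
    exact (continuous_const.sub (cont_abs.comp (hz a))).norm
  · refine isClosed_iInter fun n => isClosed_le (hd n) ?_
    exact (continuous_const.sub hx).norm
  · refine isClosed_iInter fun n => isClosed_le (hd n) ?_
    exact (continuous_const.sub hy).norm
  · exact isClosed_le continuous_const hy
  · exact isClosed_le hy hx
  · refine isClosed_le ?_ hy.norm
    refine continuous_const.div (hj.add continuous_const) fun w => ?_
    positivity
  · exact isClosed_le hx.norm (hx.sub hy).norm

/-- key fact: membership in the closure is detected by `d` -/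
lemma mem_closure_iff_d {w : W E} (h1 : ∀ n k, w.2.1 n ≤ ‖denseSeq E n - w.1 k‖)
    (h2 : ∀ n i, ‖denseSeq E n - w.1 (w.2.2.1 n i)‖ ≤ w.2.1 n + 1 / ((i : ℝ) + 1)) (v : E) :
    v ∈ closure (Set.range w.1) ↔ ∀ n, w.2.1 n ≤ ‖denseSeq E n - v‖ := by
  constructor
  · intro hv n
    have hc : IsClosed {v : E | w.2.1 n ≤ ‖denseSeq E n - v‖} :=
      isClosed_le continuous_const (by fun_prop)
    have : closure (Set.range w.1) ⊆ {v : E | w.2.1 n ≤ ‖denseSeq E n - v‖} := by
      refine closure_minimal ?_ hc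
      rintro _ ⟨k, rfl⟩
      exact h1 n k
    exact this hv
  · intro hv
    rw [Metric.mem_closure_iff]
    intro ε hε
    obtain ⟨n, hn⟩ : ∃ n, dist v (denseSeq E n) < ε / 3 := by
      have := (denseRange_denseSeq E).exists_dist_lt v (show (0:ℝ) < ε / 3 by linarith)
      exact this
    obtain ⟨i, hi⟩ := exists_nat_one_div_lt (show (0:ℝ) < ε / 3 by linarith)
    refine ⟨w.1 (w.2.2.1 n i), ⟨_, rfl⟩, ?_⟩
    have a1 := h2 n i
    have a2 := hv n
    rw [dist_eq_norm] at hn
    have a3 : ‖denseSeq E n - v‖ < ε / 3 := by rw [norm_sub_rev]; exact hn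
    have a4 : dist v (w.1 (w.2.2.1 n i)) ≤
        dist v (denseSeq E n) + dist (denseSeq E n) (w.1 (w.2.2.1 n i)) := dist_triangle _ _ _
    rw [dist_eq_norm, dist_eq_norm, dist_eq_norm] at a4
    rw [dist_eq_norm]
    linarith

/-- the sublattice attached to a parameter -/
def Phi (w : Q E) : Subl E where
  carrier :=
    { carrier := closure (Set.range w.1.1)
      add_mem' := by
        intro a b ha hb
        obtain ⟨h1, h2, h3, h4, h5, -⟩ := w.2
        rw [mem_closure_iff_d h1 h2]
        intro n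
        have hc : IsClosed {p : E × E | w.1.2.1 n ≤ ‖denseSeq E n - (p.1 + p.2)‖} :=
          isClosed_le continuous_const (by fun_prop)
        have hs : closure (Set.range w.1.1 ×ˢ Set.range w.1.1) ⊆
            {p : E × E | w.1.2.1 n ≤ ‖denseSeq E n - (p.1 + p.2)‖} := by
          refine closure_minimal ?_ hc
          rintro ⟨_, _⟩ ⟨⟨i, rfl⟩, ⟨j, rfl⟩⟩
          exact h3 i j n
        rw [closure_prod_eq] at hs
        exact hs (show (a, b) ∈ _ from ⟨ha, hb⟩)
      zero_mem' := by
        obtain ⟨h1, h2, h3, h4, h5, -⟩ := w.2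
        rw [mem_closure_iff_d h1 h2]
        intro n
        have := h4 0 0 n
        rwa [zero_smul] at this
      smul_mem' := by
        intro c a ha
        obtain ⟨h1, h2, h3, h4, h5, -⟩ := w.2
        rw [mem_closure_iff_d h1 h2]
        intro n
        have hc : IsClosed {p : E | w.1.2.1 n ≤ ‖denseSeq E n - c • p‖} :=
          isClosed_le continuous_const (by fun_prop)
        have hs : closure (Set.range w.1.1) ⊆ {p : E | w.1.2.1 n ≤ ‖denseSeq E n - c • p‖} := by
          refine closure_minimal ?_ hc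
          rintro _ ⟨i, rfl⟩
          exact h4 c i n
        exact hs ha }
  closed := isClosed_closure
  abs_mem := by
    intro a ha
    obtain ⟨h1, h2, h3, h4, h5, -⟩ := w.2
    have ha' : a ∈ closure (Set.range w.1.1) := ha
    show |a| ∈ closure (Set.range w.1.1)
    rw [mem_closure_iff_d h1 h2]
    intro n
    have hc : IsClosed {p : E | w.1.2.1 n ≤ ‖denseSeq E n - |p|‖} :=
      isClosed_le continuous_const ((continuous_const.sub cont_abs).norm)
    have hs : closure (Set.range w.1.1) ⊆ {p : E | w.1.2.1 n ≤ ‖denseSeq E n - |p|‖} := by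
      refine closure_minimal ?_ hc
      rintro _ ⟨i, rfl⟩
      exact h5 i n
    exact hs ha'

lemma coe_Phi (w : Q E) : ((Phi w).carrier : Set E) = closure (Set.range w.1.1) := rfl

lemma infDist_Phi (w : Q E) (n : ℕ) :
    Metric.infDist (denseSeq E n) ((Phi w).carrier : Set E) = w.1.2.1 n := by
  obtain ⟨h1, h2, -⟩ := w.2
  apply le_antisymm
  · refine le_of_forall_pos_le_add fun ε hε => ?_
    obtain ⟨i, hi⟩ := exists_nat_one_div_lt hε
    have hm : w.1.1 (w.1.2.2.1 n i) ∈ ((Phi w).carrier : Set E) := by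
      rw [coe_Phi]; exact subset_closure ⟨_, rfl⟩
    have := Metric.infDist_le_dist_of_mem (x := denseSeq E n) hm
    rw [dist_eq_norm] at this
    linarith [h2 n i]
  · rw [Metric.le_infDist ⟨0, (Phi w).carrier.zero_mem⟩]
    intro v hv
    rw [coe_Phi] at hv
    rw [dist_eq_norm]
    exact (mem_closure_iff_d h1 h2 v).1 hv n

lemma continuous_Phi : Continuous (Phi : Q E → Subl E) := by
  refine continuous_to fun x => ?_
  refine continuous_of_uniform_approx_of_continuous fun u hu => ?_
  obtain ⟨ε, hε, hu⟩ := Metric.mem_uniformity_dist.1 hu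
  obtain ⟨n, hn⟩ := (denseRange_denseSeq E).exists_dist_lt x hε
  refine ⟨fun w => w.1.2.1 n, by fun_prop, fun w => hu ?_⟩
  have hw : w.1.2.1 n = Metric.infDist (denseSeq E n) ((Phi w).carrier : Set E) :=
    (infDist_Phi w n).symm
  show dist (Metric.infDist x ((Phi w).carrier : Set E)) (w.1.2.1 n) < ε
  rw [hw, Real.dist_eq, abs_sub_lt_iff]
  constructor
  · have := Metric.infDist_le_infDist_add_dist (s := ((Phi w).carrier : Set E)) (x := x)
      (y := denseSeq E n)
    linarith
  · have := Metric.infDist_le_infDist_add_dist (s := ((Phi w).carrier : Set E))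
      (x := denseSeq E n) (y := x)
    rw [dist_comm] at this
    linarith

lemma range_Phi : Set.range (Phi : Q E → Subl E) = (STM E)ᶜ := by
  ext F
  constructor
  · rintro ⟨w, rfl⟩ hF
    obtain ⟨h1, h2, h3, h4, h5, h6, h7, h8, h9, h10, h11⟩ := w.2
    have hx : w.1.2.2.2.1.1 ∈ (Phi w).carrier := by
      show _ ∈ closure (Set.range w.1.1)
      rw [mem_closure_iff_d h1 h2]; exact h6
    have hy : w.1.2.2.2.1.2 ∈ (Phi w).carrier := by
      show _ ∈ closure (Set.range w.1.1)
      rw [mem_closure_iff_d h1 h2]; exact h7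
    have h0 : 0 < w.1.2.2.2.1.2 := by
      refine lt_of_le_of_ne h8 fun h => ?_
      rw [← h, norm_zero] at h10
      have : (0:ℝ) < 1 / ((w.1.2.2.2.2 : ℝ) + 1) := by positivity
      linarith
    exact absurd (hF _ hx _ hy h0 h9) (not_lt.2 h11)
  · intro hF
    have hF' : ∃ x ∈ F.carrier, ∃ y ∈ F.carrier, 0 < y ∧ y ≤ x ∧ ‖x‖ ≤ ‖x - y‖ := by
      by_contra hcon
      apply hF
      intro x hx y hy h0 hyx
      by_contra hlt
      exact hcon ⟨x, hx, y, hy, h0, hyx, not_lt.1 hlt⟩
    obtain ⟨x, hx, y, hy, h0, hyx, hxy⟩ := hF'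
    set z : ℕ → E := fun n => (denseSeq F.carrier n : E) with hz
    have hcl : closure (Set.range z) = (F.carrier : Set E) := by
      apply Set.Subset.antisymm
      · refine closure_minimal ?_ F.closed
        rintro _ ⟨n, rfl⟩
        exact (denseSeq F.carrier n).2
      · intro v hv
        rw [Metric.mem_closure_iff]
        intro ε hε
        obtain ⟨n, hn⟩ := (denseRange_denseSeq F.carrier).exists_dist_lt ⟨v, hv⟩ hε
        exact ⟨z n, ⟨n, rfl⟩, hn⟩
    have hne : ((F.carrier : Set E)).Nonempty := ⟨0, F.carrier.zero_mem⟩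
    have hm : ∀ n i : ℕ, ∃ k, ‖denseSeq E n - z k‖ ≤
        Metric.infDist (denseSeq E n) (F.carrier : Set E) + 1 / ((i : ℝ) + 1) := by
      intro n i
      have hpos : (0:ℝ) < 1 / ((i : ℝ) + 1) := by positivity
      obtain ⟨v, hv, hv2⟩ := (Metric.infDist_lt_iff (x := denseSeq E n) hne).1
        (show Metric.infDist (denseSeq E n) (F.carrier : Set E) <
          Metric.infDist (denseSeq E n) (F.carrier : Set E) + 1 / ((i : ℝ) + 1) / 2 by linarith)
      rw [← hcl, Metric.mem_closure_iff] at hv
      obtain ⟨_, ⟨k, rfl⟩, hk⟩ := hv (1 / ((i : ℝ) + 1) / 2) (by linarith)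
      refine ⟨k, ?_⟩
      have := dist_triangle (denseSeq E n) v (z k)
      rw [dist_eq_norm (denseSeq E n) (z k)] at this
      linarith
    choose m hm using hm
    obtain ⟨j, hj⟩ := exists_nat_one_div_lt (norm_pos_iff.2 h0.ne')
    have hin : ∀ v ∈ F.carrier, ∀ n,
        Metric.infDist (denseSeq E n) (F.carrier : Set E) ≤ ‖denseSeq E n - v‖ := by
      intro v hv n
      rw [← dist_eq_norm]
      exact Metric.infDist_le_dist_of_mem hv
    refine ⟨⟨(z, fun n => Metric.infDist (denseSeq E n) (F.carrier : Set E), m, (x, y), j),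
      ?_, ?_, ?_, ?_, ?_, ?_, ?_, h0.le, hyx, hj.le, hxy⟩, ?_⟩
    · intro n k; exact hin _ (denseSeq F.carrier k).2 n
    · intro n i; exact hm n i
    · intro a b n
      exact hin _ (F.carrier.add_mem (denseSeq F.carrier a).2 (denseSeq F.carrier b).2) n
    · intro c a n
      exact hin _ (F.carrier.smul_mem c (denseSeq F.carrier a).2) n
    · intro a n
      exact hin _ (F.abs_mem _ (denseSeq F.carrier a).2) n
    · intro n; exact hin _ hx n
    · intro n; exact hin _ hy n
    · apply Subl.ext'
      rw [coe_Phi]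
      exact hcl

/-- The set of strictly monotone closed sublattices is coanalytic. -/
theorem analyticSet_compl_STM : AnalyticSet (STM E)ᶜ := by
  rw [← range_Phi]
  haveI : PolishSpace (W E) := by
    haveI : IsCompletelyMetrizableSpace (ℕ → E) := inferInstance
    haveI : IsCompletelyMetrizableSpace (E × E) := inferInstance
    haveI : IsCompletelyMetrizableSpace (ℕ → ℕ → ℕ) := inferInstance
    haveI : IsCompletelyMetrizableSpace (ℕ → ℝ) := inferInstance
    haveI : IsCompletelyMetrizableSpace ((E × E) × ℕ) := inferInstance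
    haveI : IsCompletelyMetrizableSpace ((ℕ → ℕ → ℕ) × (E × E) × ℕ) := inferInstance
    haveI : IsCompletelyMetrizableSpace ((ℕ → ℝ) × (ℕ → ℕ → ℕ) × (E × E) × ℕ) := inferInstance
    haveI : IsCompletelyMetrizableSpace (W E) := inferInstance
    haveI : SeparableSpace (ℕ → E) := inferInstance
    haveI : SeparableSpace (E × E) := inferInstance
    haveI : SeparableSpace (ℕ → ℕ → ℕ) := inferInstance
    haveI : SeparableSpace (ℕ → ℝ) := inferInstance
    haveI : SeparableSpace ((E × E) × ℕ) := inferInstance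
    haveI : SeparableSpace ((ℕ → ℕ → ℕ) × (E × E) × ℕ) := inferInstance
    haveI : SeparableSpace ((ℕ → ℝ) × (ℕ → ℕ → ℕ) × (E × E) × ℕ) := inferInstance
    haveI : SeparableSpace (W E) := inferInstance
    infer_instance
  haveI : PolishSpace (Q E) := (isClosed_Q (E := E)).polishSpace
  exact analyticSet_range_of_polishSpace continuous_Phi

end Q164.SM
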