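import Pool.Agent.Q164.SM.Fam

/-!
When is the sublattice attached to a weight strictly monotone?
-/

set_option autoImplicit false
set_option linter.unusedSectionVars false

open Topology MeasureTheory Filter

namespace Q164.SM

noncomputable section

namespace Wt

variable (w : Wt)

lemma norm_J_apply_nonneg {h : L1} (hh : 0 ≤ h) (t : ℕ → Bool) :
    ‖w.J h t‖ = ∫ r, w.V t (N r) * h r := by
  rw [J_apply, norm_mulV]
  refine integral_congr_ae ?_
  filter_upwards [(Lp.coeFn_nonneg h).2 hh] with r hr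
  exact abs_of_nonneg (mul_nonneg (w.nonneg _ _) hr)

lemma integrable_V (t : ℕ → Bool) (h : L1) :
    Integrable (fun r => w.V t (N r) * h r) (volume : Measure unitInterval) :=
  integrable_mulV (w.abs_le t) h

/-- criterion for strict monotonicity -/
theorem mem_STM (k : ℕ) (h1 : ∀ t n, n ≠ k → 0 < w.V t n)
    (h2 : ∀ t₀, w.V t₀ k = 0 → ∃ t', (∀ n, w.V t₀ n ≤ w.V t' n) ∧ 0 < w.V t' k) :
    w.F ∈ STM CC := by
  intro x hx y hy hpos hle
  obtain ⟨g, rfl⟩ := w.mem_F.1 hx
  obtain ⟨g', rfl⟩ := w.mem_F.1 hy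
  by_contra hcon
  have hcon := not_lt.1 hcon
  have hg' : 0 ≤ g' := w.nonneg_of_J hpos.le
  have hu : 0 ≤ g - g' := by
    apply w.nonneg_of_J
    rw [J_sub]
    exact sub_nonneg.2 hle
  have hg : 0 ≤ g := by
    have := add_nonneg hu hg'
    rwa [sub_add_cancel] at this
  have hne : ¬ (g' : unitInterval → ℝ) =ᵐ[volume] 0 := by
    intro h0
    have h3 : g' = 0 := by
      apply Lp.ext
      exact h0.trans (Lp.coeFn_zero ℝ 1 volume).symm
    rw [h3, J_zero] at hpos
    exact lt_irrefl _ hpos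
  -- the maximum point
  obtain ⟨t₀, -, ht₀⟩ := isCompact_univ.exists_isMaxOn (s := (Set.univ : Set (ℕ → Bool)))
    ⟨fun _ => false, trivial⟩ (f := fun t => ‖(w.J (g - g')) t‖) (by fun_prop)
  have hmax : ‖w.J g - w.J g'‖ ≤ ‖w.J (g - g') t₀‖ := by
    rw [← J_sub, ContinuousMap.norm_le _ (norm_nonneg _)]
    intro t
    exact ht₀ (Set.mem_univ t)
  rw [w.norm_J_apply_nonneg hu] at hmax
  have hsub : ∀ t, ∫ r, w.V t (N r) * (g - g') r =
      (∫ r, w.V t (N r) * g r) - ∫ r, w.V t (N r) * g' r := by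
    intro t
    rw [← integral_sub (w.integrable_V t g) (w.integrable_V t g')]
    refine integral_congr_ae ?_
    filter_upwards [Lp.coeFn_sub g g'] with r hr
    rw [hr, Pi.sub_apply]; ring
  rw [hsub] at hmax
  have hle' : ∀ t, ∫ r, w.V t (N r) * g r ≤ ‖w.J g‖ := by
    intro t
    rw [← w.norm_J_apply_nonneg hg]
    exact (w.J g).norm_coe_le_norm t
  have hn' : ∀ t, 0 ≤ᵐ[volume] fun r => w.V t (N r) * g' r := by
    intro t
    filter_upwards [(Lp.coeFn_nonneg g').2 hg'] with r hr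
    exact mul_nonneg (w.nonneg _ _) hr
  have hz : ∫ r, w.V t₀ (N r) * g' r = 0 := by
    have a1 := hle' t₀
    have a2 : 0 ≤ ∫ r, w.V t₀ (N r) * g' r := integral_nonneg_of_ae (hn' t₀)
    linarith
  have hz' := (integral_eq_zero_iff_of_nonneg_ae (hn' t₀) (w.integrable_V t₀ g')).1 hz
  by_cases hk : w.V t₀ k = 0
  · obtain ⟨t', ht', hk'⟩ := h2 t₀ hk
    have b1 : (∫ r, w.V t' (N r) * g r) ≤ ∫ r, w.V t₀ (N r) * g r := by
      have a1 := hle' t'
      have a2 := hle' t₀
      have a3 : 0 ≤ ∫ r, w.V t₀ (N r) * g' r := integral_nonneg_of_ae (hn' t₀)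
      linarith
    have b2 : 0 ≤ᵐ[volume] fun r => w.V t' (N r) * g r - w.V t₀ (N r) * g r := by
      filter_upwards [(Lp.coeFn_nonneg g).2 hg] with r hr
      have := mul_le_mul_of_nonneg_right (ht' (N r)) hr
      simp only [Pi.zero_apply]
      linarith
    have b3 : ∫ r, (w.V t' (N r) * g r - w.V t₀ (N r) * g r) = 0 := by
      have a4 : 0 ≤ ∫ r, (w.V t' (N r) * g r - w.V t₀ (N r) * g r) := integral_nonneg_of_ae b2
      rw [integral_sub (w.integrable_V t' g) (w.integrable_V t₀ g)] at a4 ⊢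
      linarith
    have b4 := (integral_eq_zero_iff_of_nonneg_ae b2
      ((w.integrable_V t' g).sub (w.integrable_V t₀ g))).1 b3
    apply hne
    filter_upwards [hz', b4, (Lp.coeFn_nonneg g').2 hg', (Lp.coeFn_nonneg (g - g')).2 hu,
      Lp.coeFn_sub g g'] with r c1 c2 c3 c4 c5
    simp only [Pi.zero_apply] at c1 c2 c3 c4 ⊢
    by_cases hr : N r = k
    · rw [hr, hk, zero_mul, sub_zero] at c2
      have c6 : g r = 0 := by
        rcases mul_eq_zero.1 c2 with h | h
        · exact absurd h hk'.ne'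
        · exact h
      rw [c5, Pi.sub_apply, c6] at c4
      linarith
    · rcases mul_eq_zero.1 c1 with h | h
      · exact absurd h (h1 t₀ (N r) hr).ne'
      · exact h
  · apply hne
    filter_upwards [hz'] with r c1
    simp only [Pi.zero_apply] at c1 ⊢
    rcases mul_eq_zero.1 c1 with h | h
    · exfalso
      by_cases hr : N r = k
      · rw [hr] at h; exact hk h
      · exact (h1 t₀ (N r) hr).ne' h
    · exact h

end Wt

/-- the law of `N` -/
def nu : Measure ℕ := (volume : Measure unitInterval).map N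

lemma nu_singleton (n : ℕ) : nu {n} = ENNReal.ofReal (p n) := by
  unfold nu p
  rw [Measure.map_apply measurable_N (measurableSet_singleton n), ofReal_measureReal]

lemma integrable_nu {X : ℕ → ℝ} (hX : Summable X) (h0 : ∀ n, 0 ≤ X n) :
    Integrable (fun n => X n / p n) nu := by
  refine ⟨measurable_from_nat.aestronglyMeasurable, ?_⟩
  unfold HasFiniteIntegral
  rw [lintegral_countable']
  have h1 : ∀ n, ‖X n / p n‖ₑ * nu {n} = ENNReal.ofReal (X n) := by
    intro n
    rw [nu_singleton, Real.enorm_of_nonneg (div_nonneg (h0 n) (p_pos n).le),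
      ← ENNReal.ofReal_mul (div_nonneg (h0 n) (p_pos n).le), div_mul_cancel₀ _ (p_pos n).ne']
  simp_rw [h1]
  rw [← ENNReal.ofReal_tsum_of_nonneg h0 hX]
  exact ENNReal.ofReal_lt_top

lemma integrable_comp {X : ℕ → ℝ} (hX : Summable X) (h0 : ∀ n, 0 ≤ X n) :
    Integrable (fun r => X (N r) / p (N r)) (volume : Measure unitInterval) :=
  (integrable_map_measure (f := N) (g := fun n => X n / p n)
    measurable_from_nat.aestronglyMeasurable measurable_N.aemeasurable).1 (integrable_nu hX h0)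

/-- the function with integral `X n` over the `n`-th fibre -/
def G (X : ℕ → ℝ) (hX : Summable X) (h0 : ∀ n, 0 ≤ X n) : L1 :=
  (memLp_one_iff_integrable.2 (integrable_comp hX h0)).toLp _

lemma coeFn_G (X : ℕ → ℝ) (hX : Summable X) (h0 : ∀ n, 0 ≤ X n) :
    G X hX h0 =ᵐ[volume] fun r => X (N r) / p (N r) := MemLp.coeFn_toLp _

lemma G_nonneg (X : ℕ → ℝ) (hX : Summable X) (h0 : ∀ n, 0 ≤ X n) : 0 ≤ G X hX h0 := by
  rw [← Lp.coeFn_nonneg]
  filter_upwards [coeFn_G X hX h0] with r hr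
  rw [hr]
  exact div_nonneg (h0 _) (p_pos _).le

lemma integral_G (X : ℕ → ℝ) (hX : Summable X) (h0 : ∀ n, 0 ≤ X n) {v : ℕ → ℝ}
    (hv : ∀ n, 0 ≤ v n) (hv3 : ∀ n, v n ≤ 3) :
    ∫ r, v (N r) * G X hX h0 r = ∑' n, X n * v n := by
  have h1 : ∫ r, v (N r) * G X hX h0 r = ∫ r, (fun n => v n * (X n / p n)) (N r) := by
    refine integral_congr_ae ?_
    filter_upwards [coeFn_G X hX h0] with r hr
    rw [hr]
  have hs : Summable fun n => v n * X n := by
    refine Summable.of_nonneg_of_le (fun n => mul_nonneg (hv n) (h0 n)) (fun n => ?_)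
      (hX.mul_left 3)
    exact mul_le_mul_of_nonneg_right (hv3 n) (h0 n)
  have h2 : Integrable (fun n => v n * (X n / p n)) nu := by
    have := integrable_nu hs fun n => mul_nonneg (hv n) (h0 n)
    simpa only [mul_div_assoc] using this
  rw [h1]
  have h3 : ∫ r, (fun n => v n * (X n / p n)) (N r) = ∫ n, v n * (X n / p n) ∂nu := by
    unfold nu
    rw [integral_map measurable_N.aemeasurable measurable_from_nat.aestronglyMeasurable]
  rw [h3, integral_countable h2]
  refine tsum_congr fun n => ?_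
  have h4 : nu.real {n} = p n := by
    unfold Measure.real
    rw [nu_singleton, ENNReal.toReal_ofReal (p_pos n).le]
  rw [h4, smul_eq_mul]
  have := (p_pos n).ne'
  field_simp

namespace Wt

variable (w : Wt)

/-- criterion for failure of strict monotonicity -/
theorem not_mem_STM (k : ℕ) (t₀ : ℕ → Bool) (hk : w.V t₀ k = 0) (X : ℕ → ℝ) (hX : Summable X)
    (h0 : ∀ n, 0 ≤ X n) (hXk : 0 < X k)
    (hle : ∀ t, ∑' n, X n * w.V t n ≤ ∑' n, X n * w.V t₀ n) : w.F ∉ STM CC := by
  intro hS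
  have hX' : Summable (Pi.single k (X k) : ℕ → ℝ) := (hasSum_pi_single k (X k)).summable
  have h0' : ∀ n, 0 ≤ (Pi.single k (X k) : ℕ → ℝ) n := by
    intro n
    by_cases hn : n = k
    · subst hn; rw [Pi.single_eq_same]; exact h0 n
    · rw [Pi.single_eq_of_ne hn]
  set g := G X hX h0 with hg
  set g' := G _ hX' h0' with hg'
  have hgn : 0 ≤ g := G_nonneg _ _ _
  have hgn' : 0 ≤ g' := G_nonneg _ _ _
  have hsub : 0 ≤ g - g' := by
    rw [← Lp.coeFn_nonneg]
    filter_upwards [coeFn_G X hX h0, coeFn_G _ hX' h0', Lp.coeFn_sub g g'] with r a1 a2 a3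
    rw [a3, Pi.sub_apply, a1, a2, Pi.zero_apply, ← sub_div]
    refine div_nonneg ?_ (p_pos _).le
    by_cases hn : N r = k
    · rw [hn, Pi.single_eq_same, sub_self]
    · rw [Pi.single_eq_of_ne hn, sub_zero]; exact h0 _
  have hint' : ∀ t, ∫ r, w.V t (N r) * g' r = X k * w.V t k := by
    intro t
    rw [hg', integral_G _ hX' h0' (w.nonneg t) (w.le t)]
    rw [tsum_eq_single k]
    · rw [Pi.single_eq_same]
    · intro n hn
      rw [Pi.single_eq_of_ne hn, zero_mul]
  have hpos : 0 < w.J g' := by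
    refine lt_of_le_of_ne (w.J_nonneg hgn') fun h => ?_
    have h3 : ‖w.J g' w.tm‖ = 0 := by rw [← h]; simp
    rw [w.norm_J_apply_nonneg hgn', hint'] at h3
    have := mul_pos hXk (lt_of_lt_of_le w.c_pos (w.c_le k))
    linarith
  have hle2 : w.J g' ≤ w.J g := by
    have := w.J_nonneg hsub
    rw [J_sub] at this
    exact sub_nonneg.1 this
  have hlt := hS _ (w.J_mem g) _ (w.J_mem g') hpos hle2
  apply absurd hlt (not_lt.2 _)
  have e1 : ‖w.J g‖ ≤ ∑' n, X n * w.V t₀ n := by
    rw [ContinuousMap.norm_le _ (tsum_nonneg fun n => mul_nonneg (h0 n) (w.nonneg _ _))]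
    intro t
    rw [w.norm_J_apply_nonneg hgn, hg, integral_G _ hX h0 (w.nonneg t) (w.le t)]
    exact hle t
  have e2 : ‖w.J (g - g') t₀‖ = ∑' n, X n * w.V t₀ n := by
    rw [w.norm_J_apply_nonneg hsub]
    have : ∫ r, w.V t₀ (N r) * (g - g') r =
        (∫ r, w.V t₀ (N r) * g r) - ∫ r, w.V t₀ (N r) * g' r := by
      rw [← integral_sub (w.integrable_V t₀ g) (w.integrable_V t₀ g')]
      refine integral_congr_ae ?_
      filter_upwards [Lp.coeFn_sub g g'] with r hr
      rw [hr, Pi.sub_apply]; ring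
    rw [this, hint', hk, mul_zero, sub_zero, hg, integral_G _ hX h0 (w.nonneg t₀) (w.le t₀)]
  rw [← J_sub]
  calc ‖w.J g‖ ≤ ∑' n, X n * w.V t₀ n := e1
    _ = ‖w.J (g - g') t₀‖ := e2.symm
    _ ≤ ‖w.J (g - g')‖ := (w.J (g - g')).norm_coe_le_norm t₀

end Wt

end

end Q164.SM
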