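import Mathlib

/-!
Closed sublattices of a Banach lattice, the Wijsman topology, strict monotonicity,
`Π¹₁`-completeness.
-/

set_option autoImplicit false

open Topology MeasureTheory

namespace Q164.SM

universe u

/-- A closed sublattice of the Banach lattice `E`: a closed linear subspace `F` with `|y| ∈ F` for
all `y ∈ F`. -/
structure Subl (E : Type u) [NormedAddCommGroup E] [NormedSpace ℝ E] [Lattice E] where
  /-- the linear subspace -/
  carrier : Submodule ℝ E
  /-- it is closed -/
  closed : IsClosed (carrier : Set E)
  /-- it is a sublattice -/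
  abs_mem : ∀ y ∈ carrier, |y| ∈ carrier

variable {E : Type u} [NormedAddCommGroup E] [NormedSpace ℝ E] [Lattice E]

/-- The Wijsman topology on the set of closed sublattices: the weakest topology making
`F ↦ dist(x, F)` continuous for every `x ∈ E`. -/
noncomputable instance wijsman : TopologicalSpace (Subl E) :=
  ⨅ x : E, TopologicalSpace.induced (fun F => Metric.infDist x (F.carrier : Set E)) inferInstance

/-- The set of strictly monotone closed sublattices of `E`: those `F` such that
`‖x - y‖ < ‖x‖` whenever `0 < y ≤ x` in `F`. -/
def STM (E : Type u) [NormedAddCommGroup E] [NormedSpace ℝ E] [Lattice E] : Set (Subl E) :=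
  {F | ∀ x ∈ F.carrier, ∀ y ∈ F.carrier, 0 < y → y ≤ x → ‖x - y‖ < ‖x‖}

/-- `A` is `Π¹₁`-complete: its complement is analytic, and for every zero-dimensional Polish space
`Y` and every coanalytic `B ⊆ Y` there is a continuous `f : Y → Z` with `f⁻¹(A) = B`. -/
structure Pi11Complete {Z : Type u} [TopologicalSpace Z] (A : Set Z) : Prop where
  /-- `A` is coanalytic -/
  coanalytic : AnalyticSet Aᶜ
  /-- every coanalytic subset of a zero-dimensional Polish space reduces continuously to `A` -/
  hard : ∀ (Y : Type) [TopologicalSpace Y] [PolishSpace Y],
    TopologicalSpace.IsTopologicalBasis {U : Set Y | IsClopen U} →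
    ∀ B : Set Y, AnalyticSet Bᶜ → ∃ f : Y → Z, Continuous f ∧ f ⁻¹' A = B

/-- `L₁[0,1]`, with its norm and its (almost everywhere) order. -/
abbrev L1 : Type := Lp ℝ 1 (volume : Measure unitInterval)

/-- `𝒞 = C(Δ; L₁)`, the continuous `L₁`-valued functions on the Cantor space `Δ = {0,1}^ℕ`, with
the supremum norm and the pointwise order. -/
abbrev CC : Type := C(ℕ → Bool, L1)

lemma continuous_infDist (x : E) :
    Continuous (fun F : Subl E => Metric.infDist x (F.carrier : Set E)) :=
  continuous_iInf_dom (i := x) continuous_induced_dom

lemma continuous_to {X : Type*} [TopologicalSpace X] {f : X → Subl E}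
    (h : ∀ x : E, Continuous (fun a => Metric.infDist x ((f a).carrier : Set E))) :
    Continuous f := by
  rw [continuous_iInf_rng]
  intro x
  rw [continuous_induced_rng]
  exact h x

lemma Subl.ext' {F G : Subl E} (h : (F.carrier : Set E) = G.carrier) : F = G := by
  cases F; cases G
  congr
  exact SetLike.coe_injective h

instance : HasSolidNorm CC where
  solid := by
    intro f g h
    rw [ContinuousMap.norm_le _ (norm_nonneg g)]
    intro t
    have h1 : |f t| ≤ |g t| := h t
    exact (HasSolidNorm.solid h1).trans (g.norm_coe_le_norm t)

end Q164.SM
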