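import Pool.Agent.Q164.SM.Defs

/-!
The sublattices `{t ↦ V(t, N(·)) g : g ∈ L₁}` of `C(Δ; L₁)`.
-/

set_option autoImplicit false
set_option linter.unusedSectionVars false

open Topology MeasureTheory Filter

namespace Q164.SM

noncomputable section

/-- a measurable function `[0,1] → ℕ` all of whose fibres have positive measure -/
def N (r : unitInterval) : ℕ := ⌊1 / (r : ℝ)⌋₊ - 1

lemma measurable_N : Measurable N := by
  unfold N
  have h1 : Measurable fun r : unitInterval => ⌊1 / (r : ℝ)⌋₊ :=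
    Nat.measurable_floor.comp ((measurable_const (a := (1:ℝ))).div measurable_subtype_coe)
  exact (measurable_from_nat (f := fun k : ℕ => k - 1)).comp h1

lemma N_eq {r : unitInterval} {n : ℕ} (h1 : 1 / ((n : ℝ) + 2) < r) (h2 : (r : ℝ) < 1 / ((n : ℝ) + 1)) :
    N r = n := by
  have hn : (0:ℝ) ≤ n := Nat.cast_nonneg n
  have hr : (0:ℝ) < r := lt_trans (by positivity) h1
  have a1 : (n : ℝ) + 1 ≤ 1 / (r : ℝ) := by
    rw [le_div_iff₀ hr]
    rw [lt_div_iff₀ (by positivity)] at h2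
    linarith
  have a2 : 1 / (r : ℝ) < (n : ℝ) + 2 := by
    rw [div_lt_iff₀ hr]
    rw [div_lt_iff₀ (by positivity)] at h1
    linarith
  have : ⌊1 / (r : ℝ)⌋₊ = n + 1 := by
    rw [Nat.floor_eq_iff (by positivity)]
    push_cast
    exact ⟨a1, by linarith⟩
  unfold N
  rw [this]
  rfl

lemma fibre_pos (n : ℕ) : 0 < (volume : Measure unitInterval) (N ⁻¹' {n}) := by
  have hn : (0:ℝ) ≤ n := Nat.cast_nonneg n
  have h1 : (Subtype.val : unitInterval → ℝ) ⁻¹' Set.Ioo (1 / ((n : ℝ) + 2)) (1 / ((n : ℝ) + 1)) ⊆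
      N ⁻¹' {n} := by
    intro r hr
    exact N_eq hr.1 hr.2
  refine lt_of_lt_of_le ?_ (measure_mono h1)
  rw [Measure.Subtype.volume_def, comap_subtype_coe_apply measurableSet_Icc,
    Subtype.image_preimage_coe]
  have h2 : Set.Icc (0:ℝ) 1 ∩ Set.Ioo (1 / ((n : ℝ) + 2)) (1 / ((n : ℝ) + 1)) =
      Set.Ioo (1 / ((n : ℝ) + 2)) (1 / ((n : ℝ) + 1)) := by
    apply Set.inter_eq_self_of_subset_right
    intro x hx
    constructor
    · exact (lt_trans (by positivity) hx.1).le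
    · refine hx.2.le.trans ?_
      rw [div_le_one (by positivity)]
      linarith
  rw [h2, Real.volume_Ioo, ENNReal.ofReal_pos, sub_pos]
  apply one_div_lt_one_div_of_lt <;> linarith

/-- the measure of the `n`-th fibre -/
def p (n : ℕ) : ℝ := (volume : Measure unitInterval).real (N ⁻¹' {n})

lemma p_pos (n : ℕ) : 0 < p n := by
  unfold p Measure.real
  exact ENNReal.toReal_pos (fibre_pos n).ne' (measure_ne_top _ _)

lemma memLp_mul {v : ℕ → ℝ} (hv : ∀ n, |v n| ≤ 3) (g : L1) :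
    MemLp (fun r => v (N r) * g r) 1 (volume : Measure unitInterval) := by
  refine MemLp.of_le_mul (c := 3) (Lp.memLp g) ?_ (Eventually.of_forall fun r => ?_)
  · exact ((measurable_from_nat (f := v)).comp measurable_N).aestronglyMeasurable.mul
      (Lp.aestronglyMeasurable g)
  · rw [norm_mul]
    exact mul_le_mul_of_nonneg_right (hv _) (norm_nonneg _)

/-- multiplication by `v ∘ N` -/
def mulV (v : ℕ → ℝ) (hv : ∀ n, |v n| ≤ 3) (g : L1) : L1 := (memLp_mul hv g).toLp _

lemma coeFn_mulV (v : ℕ → ℝ) (hv : ∀ n, |v n| ≤ 3) (g : L1) :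
    mulV v hv g =ᵐ[volume] fun r => v (N r) * g r := MemLp.coeFn_toLp _

lemma integrable_mulV {v : ℕ → ℝ} (hv : ∀ n, |v n| ≤ 3) (g : L1) :
    Integrable (fun r => v (N r) * g r) (volume : Measure unitInterval) :=
  memLp_one_iff_integrable.1 (memLp_mul hv g)

lemma norm_L1 (g : L1) : ‖g‖ = ∫ r, |g r| := L1.norm_eq_integral_norm g

lemma norm_mulV (v : ℕ → ℝ) (hv : ∀ n, |v n| ≤ 3) (g : L1) :
    ‖mulV v hv g‖ = ∫ r, |v (N r) * g r| := by
  rw [norm_L1]
  refine integral_congr_ae ?_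
  filter_upwards [coeFn_mulV v hv g] with r hr
  rw [hr]

lemma norm_mulV_sub (v v' : ℕ → ℝ) (hv : ∀ n, |v n| ≤ 3) (hv' : ∀ n, |v' n| ≤ 3) (g : L1) :
    ‖mulV v hv g - mulV v' hv' g‖ = ∫ r, |(v (N r) - v' (N r)) * g r| := by
  rw [norm_L1]
  refine integral_congr_ae ?_
  filter_upwards [coeFn_mulV v hv g, coeFn_mulV v' hv' g, Lp.coeFn_sub (mulV v hv g) (mulV v' hv' g)]
    with r h1 h2 h3
  rw [h3, Pi.sub_apply, h1, h2]
  ring_nf

lemma mulV_add (v : ℕ → ℝ) (hv : ∀ n, |v n| ≤ 3) (g g' : L1) :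
    mulV v hv (g + g') = mulV v hv g + mulV v hv g' := by
  apply Lp.ext
  filter_upwards [coeFn_mulV v hv g, coeFn_mulV v hv g', coeFn_mulV v hv (g + g'),
    Lp.coeFn_add g g', Lp.coeFn_add (mulV v hv g) (mulV v hv g')] with r h1 h2 h3 h4 h5
  rw [h5, Pi.add_apply, h1, h2, h3, h4, Pi.add_apply]
  ring

lemma mulV_smul (v : ℕ → ℝ) (hv : ∀ n, |v n| ≤ 3) (c : ℝ) (g : L1) :
    mulV v hv (c • g) = c • mulV v hv g := by
  apply Lp.ext
  filter_upwards [coeFn_mulV v hv g, coeFn_mulV v hv (c • g),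
    Lp.coeFn_smul c g, Lp.coeFn_smul c (mulV v hv g)] with r h1 h2 h3 h4
  rw [h4, Pi.smul_apply, h1, h2, h3, Pi.smul_apply, smul_eq_mul, smul_eq_mul]
  ring

lemma mulV_abs (v : ℕ → ℝ) (hv : ∀ n, |v n| ≤ 3) (hv0 : ∀ n, 0 ≤ v n) (g : L1) :
    mulV v hv |g| = |mulV v hv g| := by
  apply Lp.ext
  filter_upwards [coeFn_mulV v hv g, coeFn_mulV v hv |g|,
    Lp.coeFn_abs g, Lp.coeFn_abs (mulV v hv g)] with r h1 h2 h3 h4
  rw [h4, h1, h2, h3, abs_mul, abs_of_nonneg (hv0 _)]

/-- a weight -/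
structure Wt where
  /-- the weight -/
  V : (ℕ → Bool) → ℕ → ℝ
  cont : ∀ n, Continuous fun t => V t n
  nonneg : ∀ t n, 0 ≤ V t n
  le : ∀ t n, V t n ≤ 3
  /-- a point at which the weight is large -/
  tm : ℕ → Bool
  /-- a lower bound -/
  c : ℝ
  c_pos : 0 < c
  c_le : ∀ n, c ≤ V tm n

namespace Wt

variable (w : Wt)

lemma abs_le (t : ℕ → Bool) (n : ℕ) : |w.V t n| ≤ 3 := by
  rw [abs_of_nonneg (w.nonneg t n)]; exact w.le t n

lemma continuous_mulV (g : L1) : Continuous fun t => mulV (w.V t) (w.abs_le t) g := by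
  rw [continuous_iff_continuousAt]
  intro t₀
  rw [ContinuousAt, tendsto_iff_norm_sub_tendsto_zero]
  simp_rw [norm_mulV_sub]
  have hc : Continuous fun t => ∫ r, |(w.V t (N r) - w.V t₀ (N r)) * g r| := by
    refine continuous_of_dominated (bound := fun r => 6 * |g r|) ?_ ?_ ?_ ?_
    · intro t
      have h1 : Measurable fun r => w.V t (N r) - w.V t₀ (N r) :=
        ((measurable_from_nat (f := w.V t)).comp measurable_N).sub
          ((measurable_from_nat (f := w.V t₀)).comp measurable_N)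
      have h2 := (h1.aestronglyMeasurable (μ := (volume : Measure unitInterval))).mul
        (Lp.aestronglyMeasurable g)
      exact h2.norm
    · intro t
      refine Eventually.of_forall fun r => ?_
      rw [Real.norm_eq_abs, abs_abs, abs_mul]
      refine mul_le_mul_of_nonneg_right ?_ (abs_nonneg _)
      have := abs_sub (w.V t (N r)) (w.V t₀ (N r))
      have h1 := w.abs_le t (N r)
      have h2 := w.abs_le t₀ (N r)
      linarith
    · exact (L1.integrable_coeFn g).abs.const_mul 6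
    · refine Eventually.of_forall fun r => ?_
      have := w.cont (N r)
      fun_prop
  have h0 := hc.tendsto t₀
  simpa using h0

/-- the embedding of `L₁` -/
def J (g : L1) : CC := ⟨fun t => mulV (w.V t) (w.abs_le t) g, w.continuous_mulV g⟩

lemma J_apply (g : L1) (t : ℕ → Bool) : w.J g t = mulV (w.V t) (w.abs_le t) g := rfl

/-- the embedding as a linear map -/
def Jl : L1 →ₗ[ℝ] CC where
  toFun := w.J
  map_add' g g' := by
    ext1 t
    exact mulV_add _ (w.abs_le t) g g'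
  map_smul' c g := by
    ext1 t
    exact mulV_smul _ (w.abs_le t) c g

lemma norm_J_le (g : L1) : ‖w.J g‖ ≤ 3 * ‖g‖ := by
  rw [ContinuousMap.norm_le _ (by positivity)]
  intro t
  rw [J_apply, norm_mulV, norm_L1, ← integral_const_mul]
  refine integral_mono (integrable_mulV (w.abs_le t) g).abs
    ((L1.integrable_coeFn g).abs.const_mul 3) fun r => ?_
  show |w.V t (N r) * g r| ≤ 3 * |g r|
  rw [abs_mul]
  exact mul_le_mul_of_nonneg_right (w.abs_le _ _) (abs_nonneg _)

lemma le_norm_J (g : L1) : w.c * ‖g‖ ≤ ‖w.J g‖ := by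
  refine le_trans ?_ ((w.J g).norm_coe_le_norm w.tm)
  rw [J_apply, norm_mulV, norm_L1, ← integral_const_mul]
  refine integral_mono ((L1.integrable_coeFn g).abs.const_mul w.c)
    (integrable_mulV (w.abs_le w.tm) g).abs
    fun r => ?_
  show w.c * |g r| ≤ |w.V w.tm (N r) * g r|
  rw [abs_mul, abs_of_nonneg (w.nonneg _ _)]
  exact mul_le_mul_of_nonneg_right (w.c_le _) (abs_nonneg _)

lemma isClosed_range : IsClosed (LinearMap.range w.Jl : Set CC) := by
  have h1 : AntilipschitzWith (Real.toNNReal w.c)⁻¹ (w.Jl.mkContinuous 3 w.norm_J_le) := by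
    refine ContinuousLinearMap.antilipschitz_of_bound _ fun g => ?_
    have h := w.le_norm_J g
    have h2 : ((Real.toNNReal w.c)⁻¹ : NNReal) = w.c⁻¹ := by
      rw [NNReal.coe_inv, Real.coe_toNNReal _ w.c_pos.le]
    rw [h2, ← div_eq_inv_mul, le_div_iff₀ w.c_pos, mul_comm]
    exact h
  have h2 := h1.isClosed_range (w.Jl.mkContinuous 3 w.norm_J_le).uniformContinuous
  have h3 : (LinearMap.range w.Jl : Set CC) = Set.range (w.Jl.mkContinuous 3 w.norm_J_le) := by
    rw [LinearMap.coe_range]; rfl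
  rw [h3]; exact h2

/-- the sublattice attached to a weight -/
def F : Subl CC where
  carrier := LinearMap.range w.Jl
  closed := w.isClosed_range
  abs_mem := by
    rintro _ ⟨g, rfl⟩
    refine ⟨|g|, ?_⟩
    ext1 t
    exact mulV_abs _ (w.abs_le t) (w.nonneg t) g

lemma mem_F {x : CC} : x ∈ w.F.carrier ↔ ∃ g, w.J g = x := Iff.rfl

lemma J_mem (g : L1) : w.J g ∈ w.F.carrier := ⟨g, rfl⟩

lemma J_sub (g g' : L1) : w.J (g - g') = w.J g - w.J g' := map_sub w.Jl g g'

lemma J_zero : w.J 0 = 0 := map_zero w.Jl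

lemma J_injective : Function.Injective w.J := by
  intro g g' h
  have h1 : w.J (g - g') = 0 := by rw [J_sub, h, sub_self]
  have h2 := w.le_norm_J (g - g')
  rw [h1, norm_zero] at h2
  have h3 : ‖g - g'‖ ≤ 0 := by
    by_contra hcon
    have := mul_pos w.c_pos (not_le.1 hcon)
    linarith
  exact sub_eq_zero.1 (norm_le_zero_iff.1 h3)

lemma J_nonneg {g : L1} (hg : 0 ≤ g) : 0 ≤ w.J g := by
  intro t
  show (0 : L1) ≤ mulV (w.V t) (w.abs_le t) g
  rw [← Lp.coeFn_nonneg]
  filter_upwards [coeFn_mulV (w.V t) (w.abs_le t) g, (Lp.coeFn_nonneg g).2 hg] with r h1 h2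
  rw [h1]
  exact mul_nonneg (w.nonneg _ _) h2

lemma nonneg_of_J {g : L1} (hg : 0 ≤ w.J g) : 0 ≤ g := by
  have h := hg w.tm
  have h' : (0 : L1) ≤ mulV (w.V w.tm) (w.abs_le w.tm) g := h
  rw [← Lp.coeFn_nonneg] at h' ⊢
  filter_upwards [coeFn_mulV (w.V w.tm) (w.abs_le w.tm) g, h'] with r h1 h2
  rw [h1] at h2
  have hc : 0 < w.V w.tm (N r) := lt_of_lt_of_le w.c_pos (w.c_le _)
  exact nonneg_of_mul_nonneg_right h2 hc

end Wt

end

end Q164.SM
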