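import Mathlib

/-!
Analytic subsets of zero-dimensional Polish spaces as trees.
-/

set_option autoImplicit false
set_option linter.unusedSectionVars false
set_option linter.style.haveILetI false

open Topology MeasureTheory Filter TopologicalSpace

namespace Q164.SM

lemma exists_label {Y : Type*} [MetricSpace Y] [SecondCountableTopology Y]
    (hb : IsTopologicalBasis {U : Set Y | IsClopen U}) {ε : ℝ} (hε : 0 < ε) :
    ∃ l : Y → ℕ, Continuous l ∧ ∀ y y', l y = l y' → dist y y' < ε := by
  rcases isEmpty_or_nonempty Y with hY | hY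
  · exact ⟨fun _ => 0, continuous_const, fun y => hY.elim y⟩
  have h1 : ∀ y : Y, ∃ C : Set Y, IsClopen C ∧ y ∈ C ∧ C ⊆ Metric.ball y (ε / 2) := by
    intro y
    obtain ⟨C, hC, hy, hs⟩ := hb.exists_subset_of_mem_open
      (Metric.mem_ball_self (show 0 < ε / 2 by linarith)) Metric.isOpen_ball
    exact ⟨C, hC, hy, hs⟩
  choose C hC hyC hCb using h1
  obtain ⟨S, hS, hcov⟩ := countable_cover_nhds (f := C) fun y => (hC y).isOpen.mem_nhds (hyC y)
  have hSne : S.Nonempty := by
    by_contra hcon
    rw [Set.not_nonempty_iff_eq_empty] at hcon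
    rw [hcon] at hcov
    simp only [Set.mem_empty_iff_false, Set.iUnion_of_empty, Set.iUnion_empty] at hcov
    obtain ⟨y⟩ := hY
    have : y ∈ (Set.univ : Set Y) := trivial
    rw [← hcov] at this
    exact this
  obtain ⟨c, hc⟩ := hS.exists_eq_range hSne
  have hex : ∀ y, ∃ i, y ∈ C (c i) := by
    intro y
    have : y ∈ ⋃ x ∈ S, C x := by rw [hcov]; trivial
    simp only [Set.mem_iUnion] at this
    obtain ⟨x, hx, hy⟩ := this
    rw [hc] at hx
    obtain ⟨i, rfl⟩ := hx
    exact ⟨i, hy⟩
  classical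
  refine ⟨fun y => Nat.find (hex y), ?_, ?_⟩
  · rw [continuous_discrete_rng]
    intro i
    have : (fun y => Nat.find (hex y)) ⁻¹' {i} = C (c i) \ ⋃ j ∈ Finset.range i, C (c j) := by
      ext y
      simp only [Set.mem_preimage, Set.mem_singleton_iff, Set.mem_sdiff, Set.mem_iUnion,
        Finset.mem_range, not_exists, Nat.find_eq_iff]
    rw [this]
    refine (hC _).isOpen.sdiff ?_
    exact (Finset.range i).finite_toSet.isClosed_biUnion (fun j _ => (hC _).isClosed)
  · intro y y' h
    have a1 := hCb _ (Nat.find_spec (hex y))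
    have a2 := hCb _ (Nat.find_spec (hex y'))
    have h' : Nat.find (hex y) = Nat.find (hex y') := h
    rw [← h'] at a2
    rw [Metric.mem_ball] at a1 a2
    have := dist_triangle_right y y' (c (Nat.find (hex y)))
    linarith

/-- the first `n` entries of `x` -/
def pre (x : ℕ → ℕ) (n : ℕ) : List ℕ := (List.range n).map x

lemma length_pre (x : ℕ → ℕ) (n : ℕ) : (pre x n).length = n := by simp [pre]

lemma getElem_pre (x : ℕ → ℕ) (n i : ℕ) (h : i < (pre x n).length) : (pre x n)[i] = x i := by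
  simp [pre]

lemma pre_eq_iff (x x' : ℕ → ℕ) (n : ℕ) : pre x n = pre x' n ↔ ∀ i < n, x i = x' i := by
  constructor
  · intro h i hi
    have h1 : i < (pre x n).length := by rw [length_pre]; exact hi
    have h2 : i < (pre x' n).length := by rw [length_pre]; exact hi
    rw [← getElem_pre x n i h1, ← getElem_pre x' n i h2]
    simp only [h]
  · intro h
    apply List.ext_getElem
    · rw [length_pre, length_pre]
    · intro i h1 h2
      rw [getElem_pre, getElem_pre]
      rw [length_pre] at h1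
      exact h i h1

/-- Coding of analytic sets by trees. -/
lemma exists_tree {Y : Type*} [TopologicalSpace Y] [PolishSpace Y]
    (hb : IsTopologicalBasis {U : Set Y | IsClopen U}) {A : Set Y} (hA : AnalyticSet A) :
    ∃ bad : List ℕ → Set Y, (∀ s, IsClopen (bad s)) ∧
      (∀ y ∈ A, ∃ x : ℕ → ℕ, ∀ n, y ∉ bad (pre x n)) ∧
      (∀ y, (∃ x : ℕ → ℕ, ∀ n, y ∉ bad (pre x n)) → y ∈ A) ∧
      (∀ s y, y ∈ bad (s ++ [0])) := by
  rw [AnalyticSet_def] at hA
  rcases hA with rfl | ⟨g, hg, hgr⟩
  · refine ⟨fun _ => Set.univ, fun _ => isClopen_univ, ?_, ?_, fun _ _ => trivial⟩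
    · intro y hy; exact absurd hy (Set.notMem_empty y)
    · rintro y ⟨x, hx⟩; exact absurd trivial (hx 0)
  letI := upgradeIsCompletelyMetrizable Y
  have hl : ∀ n : ℕ, ∃ l : Y → ℕ, Continuous l ∧ ∀ y y', l y = l y' →
      dist y y' < 1 / ((n : ℝ) + 1) := fun n => exists_label hb (by positivity)
  choose l hlc hl using hl
  set g₁ : (ℕ → ℕ) → Y := fun x => g (fun n => x n - 1) with hg₁
  have hg₁c : Continuous g₁ := by
    refine hg.comp (continuous_pi fun n => ?_)
    exact (continuous_of_discreteTopology (f := fun k : ℕ => k - 1)).comp (continuous_apply n)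
  refine ⟨fun s => {y | 0 ∈ s ∨ ¬ ∃ x : ℕ → ℕ, pre x s.length = s ∧ l s.length (g₁ x) = l s.length y},
    ?_, ?_, ?_, ?_⟩
  · intro s
    have : {y | 0 ∈ s ∨ ¬ ∃ x : ℕ → ℕ, pre x s.length = s ∧ l s.length (g₁ x) = l s.length y} =
        l s.length ⁻¹' {k | 0 ∈ s ∨ ¬ ∃ x : ℕ → ℕ, pre x s.length = s ∧ l s.length (g₁ x) = k} :=
      rfl
    show IsClopen {y | 0 ∈ s ∨ ¬ ∃ x : ℕ → ℕ, pre x s.length = s ∧ l s.length (g₁ x) = l s.length y}
    rw [this]
    exact (isClopen_discrete _).preimage (hlc _)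
  · intro y hy
    rw [← hgr] at hy
    obtain ⟨x, rfl⟩ := hy
    refine ⟨fun n => x n + 1, fun n => ?_⟩
    rintro (h | h)
    · simp [pre] at h
    · apply h
      refine ⟨fun n => x n + 1, ?_, ?_⟩
      · rw [length_pre]
      · rfl
  · rintro y ⟨x, hx⟩
    have h1 : ∀ n, ∃ x' : ℕ → ℕ, pre x' n = pre x n ∧ l n (g₁ x') = l n y := by
      intro n
      have := hx n
      rw [Set.mem_ofPred_eq, not_or, not_not, length_pre] at this
      exact this.2
    choose x' hx' hlx using h1
    have hlim : Tendsto x' atTop (𝓝 x) := by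
      rw [tendsto_pi_nhds]
      intro i
      refine tendsto_const_nhds.congr' ?_
      filter_upwards [eventually_gt_atTop i] with n hn
      exact ((pre_eq_iff _ _ _).1 (hx' n) i hn).symm
    have h2 : Tendsto (fun n => g₁ (x' n)) atTop (𝓝 (g₁ x)) := (hg₁c.tendsto x).comp hlim
    have h3 : Tendsto (fun n => g₁ (x' n)) atTop (𝓝 y) := by
      rw [tendsto_iff_dist_tendsto_zero]
      refine squeeze_zero (fun _ => dist_nonneg) (fun n => (hl n _ _ (hlx n)).le) ?_
      exact tendsto_one_div_add_atTop_nhds_zero_nat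
    have h4 := tendsto_nhds_unique h2 h3
    rw [← hgr, ← h4]
    exact ⟨_, rfl⟩
  · intro s y
    left
    simp

end Q164.SM
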