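import Pool.Agent.Q164.SM.Crit
import Pool.Agent.Q164.SM.Tree

/-!
The reduction of analytic sets to the sublattices that are not strictly monotone.
-/

set_option autoImplicit false
set_option linter.unusedSectionVars false
set_option linter.style.haveILetI false

open Topology MeasureTheory Filter TopologicalSpace

namespace Q164.SM

noncomputable section

open Classical

/-- the compact space `(ℕ ∪ {∞})^ℕ` -/
abbrev K : Type := ℕ → OnePoint ℕ

/-- the points of `K` extending `s` -/
def Ext (s : List ℕ) : Set K := {t | ∀ i : Fin s.length, t i = ((s[i] : ℕ) : OnePoint ℕ)}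

lemma isClopen_Ext (s : List ℕ) : IsClopen (Ext s) := by
  have : Ext s = ⋂ i : Fin s.length, {t : K | t i = ((s[i] : ℕ) : OnePoint ℕ)} := by
    ext t; simp [Ext]
  rw [this]
  refine isClopen_iInter_of_finite fun i => ?_
  have h1 : IsClopen {((s[i] : ℕ) : OnePoint ℕ)} := by
    refine ⟨isClosed_singleton, ?_⟩
    have := (OnePoint.isOpenEmbedding_coe (X := ℕ)).isOpenMap {s[i]} (isOpen_discrete _)
    rwa [Set.image_singleton] at this
  exact h1.preimage (continuous_apply _)

/-- the indicator function of a set -/
def ind {X : Type*} (s : Set X) (x : X) : ℝ := if x ∈ s then 1 else 0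

lemma ind_nonneg {X : Type*} (s : Set X) (x : X) : 0 ≤ ind s x := by
  unfold ind; split_ifs <;> norm_num

lemma ind_le {X : Type*} (s : Set X) (x : X) : ind s x ≤ 1 := by
  unfold ind; split_ifs <;> norm_num

lemma ind_of_mem {X : Type*} {s : Set X} {x : X} (h : x ∈ s) : ind s x = 1 := if_pos h

lemma ind_of_notMem {X : Type*} {s : Set X} {x : X} (h : x ∉ s) : ind s x = 0 := if_neg h

lemma continuous_ind {X : Type*} [TopologicalSpace X] {s : Set X} (h : IsClopen s) :
    Continuous (ind s) := by
  have : ind s = s.indicator (fun _ => (1:ℝ)) := by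
    ext x; simp [ind, Set.indicator]
  rw [this]
  exact continuous_const.indicator (by rw [h.frontier_eq]; simp)

/-- the weights -/
def a (s : List ℕ) : ℝ := (1 / 2) ^ (s.length + 1) * (1 / 2) ^ (Encodable.encode s)

lemma a_pos (s : List ℕ) : 0 < a s := by unfold a; positivity

lemma a_le_len (s : List ℕ) : a s ≤ (1 / 2) ^ (s.length + 1) := by
  unfold a
  exact mul_le_of_le_one_right (by positivity) (pow_le_one₀ (by norm_num) (by norm_num))

lemma a_le_enc (s : List ℕ) : a s ≤ (1 / 2) ^ (Encodable.encode s) := by
  unfold a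
  exact mul_le_of_le_one_left (by positivity) (pow_le_one₀ (by norm_num) (by norm_num))

lemma summable_a : Summable a := by
  refine Summable.of_nonneg_of_le (fun s => (a_pos s).le) a_le_enc ?_
  exact summable_geometric_two.comp_injective Encodable.encode_injective

variable {Y : Type} [TopologicalSpace Y]

/-- the function `φ_y` on `K` -/
def phi (bad : List ℕ → Set Y) (y : Y) (t : K) : ℝ := ∑' s, a s * ind (bad s) y * ind (Ext s) t

lemma term_nonneg (bad : List ℕ → Set Y) (y : Y) (t : K) (s : List ℕ) :
    0 ≤ a s * ind (bad s) y * ind (Ext s) t :=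
  mul_nonneg (mul_nonneg (a_pos s).le (ind_nonneg _ _)) (ind_nonneg _ _)

lemma term_le (bad : List ℕ → Set Y) (y : Y) (t : K) (s : List ℕ) :
    a s * ind (bad s) y * ind (Ext s) t ≤ a s := by
  have h1 := ind_le (bad s) y
  have h2 := ind_le (Ext s) t
  have h3 := ind_nonneg (bad s) y
  have h4 := ind_nonneg (Ext s) t
  calc a s * ind (bad s) y * ind (Ext s) t ≤ a s * ind (bad s) y :=
        mul_le_of_le_one_right (mul_nonneg (a_pos s).le h3) h2
    _ ≤ a s := mul_le_of_le_one_right (a_pos s).le h1

lemma summable_term (bad : List ℕ → Set Y) (y : Y) (t : K) :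
    Summable fun s => a s * ind (bad s) y * ind (Ext s) t :=
  Summable.of_nonneg_of_le (term_nonneg bad y t) (term_le bad y t) summable_a

lemma phi_nonneg (bad : List ℕ → Set Y) (y : Y) (t : K) : 0 ≤ phi bad y t :=
  tsum_nonneg (term_nonneg bad y t)

lemma le_phi {bad : List ℕ → Set Y} {y : Y} {t : K} {s : List ℕ} (h1 : y ∈ bad s)
    (h2 : t ∈ Ext s) : a s ≤ phi bad y t := by
  have := (summable_term bad y t).le_tsum s fun j _ => term_nonneg bad y t j
  rwa [ind_of_mem h1, ind_of_mem h2, mul_one, mul_one] at this

lemma continuous_phi (bad : List ℕ → Set Y) (y : Y) : Continuous (phi bad y) := by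
  unfold phi
  refine continuous_tsum (u := a) (fun s => ?_) summable_a fun s t => ?_
  · exact continuous_const.mul (continuous_ind (isClopen_Ext s))
  · rw [Real.norm_of_nonneg (term_nonneg bad y t s)]
    exact term_le bad y t s

/-- if all the bad prefixes of `t` have length `> n`, then `φ(t) ≤ 2^{-(n+1)}` -/
lemma phi_le {bad : List ℕ → Set Y} {y : Y} {t : K} (n : ℕ)
    (h : ∀ s, t ∈ Ext s → y ∈ bad s → n < s.length) : phi bad y t ≤ (1 / 2) ^ (n + 1) := by
  set S : Set (List ℕ) := {s | t ∈ Ext s} with hS
  have h1 : phi bad y t = ∑' s : S, a s * ind (bad s) y * ind (Ext (s : List ℕ)) t := by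
    unfold phi
    rw [tsum_subtype_eq_of_support_subset (f := fun s => a s * ind (bad s) y * ind (Ext s) t)]
    intro s hs
    by_contra hcon
    apply hs
    show a s * ind (bad s) y * ind (Ext s) t = 0
    rw [ind_of_notMem (show t ∉ Ext s from hcon), mul_zero]
  set F : ℕ → ℝ := fun m => if n < m then (1 / 2) ^ (m + 1) else 0 with hF
  have hFs : Summable F := by
    refine Summable.of_nonneg_of_le (fun m => ?_) (fun m => ?_) (summable_geometric_two)
    · simp only [hF]; split_ifs <;> positivity
    · simp only [hF]; split_ifs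
      · rw [pow_succ]
        have : (0:ℝ) ≤ (1 / 2) ^ m := by positivity
        linarith
      · positivity
  have hinj : Function.Injective fun s : S => (s : List ℕ).length := by
    rintro ⟨s, hs⟩ ⟨s', hs'⟩ hss
    have hss : s.length = s'.length := hss
    rw [Subtype.mk.injEq]
    apply List.ext_getElem hss
    intro i h1 h2
    have e1 := hs ⟨i, h1⟩
    have e2 := hs' ⟨i, h2⟩
    have e3 : ((s[i] : ℕ) : OnePoint ℕ) = ((s'[i] : ℕ) : OnePoint ℕ) := e1.symm.trans e2
    exact OnePoint.coe_injective e3
  have h2 : (∑' s : S, a s * ind (bad s) y * ind (Ext (s : List ℕ)) t) ≤ ∑' m, F m := by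
    refine Summable.tsum_le_tsum_of_inj (fun s : S => (s : List ℕ).length) hinj
      (fun m _ => by simp only [hF]; split_ifs <;> positivity) ?_
      ((summable_term bad y t).subtype S) hFs
    rintro ⟨s, hs⟩
    simp only [hF]
    by_cases hb : y ∈ bad s
    · rw [if_pos (h s hs hb)]
      exact (term_le bad y t s).trans (a_le_len s)
    · rw [ind_of_notMem hb, mul_zero, zero_mul]
      split_ifs <;> positivity
  have h3 : ∑' m, F m = (1 / 2) ^ (n + 1) := by
    rw [← hFs.sum_add_tsum_nat_add (n + 1)]
    have e1 : ∑ i ∈ Finset.range (n + 1), F i = 0 := by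
      refine Finset.sum_eq_zero fun i hi => ?_
      simp only [hF]
      rw [if_neg]
      have := Finset.mem_range.1 hi
      omega
    have e2 : ∀ i, F (i + (n + 1)) = (1 / 2) ^ (n + 2) * (1 / 2) ^ i := by
      intro i
      simp only [hF]
      rw [if_pos (by omega), ← pow_add]
      congr 1
      omega
    rw [e1, zero_add]
    simp_rw [e2]
    rw [tsum_mul_left, tsum_geometric_two]
    ring
  rw [h1]
  exact h2.trans h3.le

lemma phi_le_one (bad : List ℕ → Set Y) (y : Y) (t : K) : phi bad y t ≤ 1 := by
  unfold phi
  refine (Summable.tsum_le_tsum (term_le bad y t) (summable_term bad y t) summable_a).trans ?_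
  have h1 : ∀ s, a s ≤ (1 / 2) * (1 / 2) ^ (Encodable.encode s) := by
    intro s
    unfold a
    refine mul_le_mul_of_nonneg_right ?_ (by positivity)
    rw [pow_succ]
    exact mul_le_of_le_one_left (by norm_num) (pow_le_one₀ (by norm_num) (by norm_num))
  have h2 : Summable fun s : List ℕ => (1 / 2 : ℝ) * (1 / 2) ^ (Encodable.encode s) :=
    (summable_geometric_two.comp_injective Encodable.encode_injective).mul_left _
  refine (Summable.tsum_le_tsum h1 summable_a h2).trans ?_
  rw [tsum_mul_left]
  have h3 : (∑' s : List ℕ, (1 / 2 : ℝ) ^ (Encodable.encode s)) ≤ ∑' n : ℕ, (1 / 2 : ℝ) ^ n :=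
    Summable.tsum_le_tsum_of_inj Encodable.encode Encodable.encode_injective
      (fun _ _ => by positivity) (fun _ => le_rfl)
      (summable_geometric_two.comp_injective Encodable.encode_injective) summable_geometric_two
  rw [tsum_geometric_two] at h3
  linarith

/-- the distance between the parameters -/
def delta (bad : List ℕ → Set Y) (y y' : Y) : ℝ := ∑' s, a s * |ind (bad s) y - ind (bad s) y'|

lemma abs_ind_sub_le (s : Set Y) (y y' : Y) : |ind s y - ind s y'| ≤ 1 := by
  rw [abs_le]
  constructor <;> linarith [ind_nonneg s y, ind_nonneg s y', ind_le s y, ind_le s y']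

lemma summable_delta (bad : List ℕ → Set Y) (y y' : Y) :
    Summable fun s => a s * |ind (bad s) y - ind (bad s) y'| :=
  Summable.of_nonneg_of_le (fun s => mul_nonneg (a_pos s).le (abs_nonneg _))
    (fun s => mul_le_of_le_one_right (a_pos s).le (abs_ind_sub_le _ _ _)) summable_a

lemma delta_nonneg (bad : List ℕ → Set Y) (y y' : Y) : 0 ≤ delta bad y y' :=
  tsum_nonneg fun s => mul_nonneg (a_pos s).le (abs_nonneg _)

lemma delta_comm (bad : List ℕ → Set Y) (y y' : Y) : delta bad y y' = delta bad y' y := by
  unfold delta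
  exact tsum_congr fun s => by rw [abs_sub_comm]

lemma delta_self (bad : List ℕ → Set Y) (y : Y) : delta bad y y = 0 := by
  unfold delta
  simp

lemma continuous_delta {bad : List ℕ → Set Y} (hbad : ∀ s, IsClopen (bad s)) (y : Y) :
    Continuous fun y' => delta bad y' y := by
  unfold delta
  refine continuous_tsum (u := a) (fun s => ?_) summable_a fun s y' => ?_
  · exact continuous_const.mul ((continuous_ind (hbad s)).sub continuous_const).abs
  · rw [Real.norm_of_nonneg (mul_nonneg (a_pos s).le (abs_nonneg _))]
    exact mul_le_of_le_one_right (a_pos s).le (abs_ind_sub_le _ _ _)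

lemma abs_tsum_le {f : List ℕ → ℝ} (h : Summable fun s => |f s|) :
    |∑' s, f s| ≤ ∑' s, |f s| := by
  have h' : Summable fun s => ‖f s‖ := h
  have := norm_tsum_le_tsum_norm h'
  simpa only [Real.norm_eq_abs] using this

lemma abs_phi_sub_le (bad : List ℕ → Set Y) (y y' : Y) (t : K) :
    |phi bad y t - phi bad y' t| ≤ delta bad y y' := by
  set f : List ℕ → ℝ := fun s =>
    a s * ind (bad s) y * ind (Ext s) t - a s * ind (bad s) y' * ind (Ext s) t with hf
  have h1 : phi bad y t - phi bad y' t = ∑' s, f s :=
    ((summable_term bad y t).tsum_sub (summable_term bad y' t)).symm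
  have h2 : ∀ s, |f s| ≤ a s * |ind (bad s) y - ind (bad s) y'| := by
    intro s
    have e : f s = a s * (ind (bad s) y - ind (bad s) y') * ind (Ext s) t := by
      rw [hf]; ring
    rw [e, abs_mul, abs_mul, abs_of_pos (a_pos s), abs_of_nonneg (ind_nonneg (Ext s) t)]
    exact mul_le_of_le_one_right (mul_nonneg (a_pos s).le (abs_nonneg _)) (ind_le _ _)
  have h3 : Summable fun s => |f s| :=
    Summable.of_nonneg_of_le (fun _ => abs_nonneg _) h2 (summable_delta bad y y')
  rw [h1]
  exact (abs_tsum_le h3).trans (Summable.tsum_le_tsum h2 h3 (summable_delta bad y y'))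

/-! ### the weights -/

lemma exists_pi : ∃ f : (ℕ → Bool) → K, Continuous f ∧ Function.Surjective f := by
  letI : MetricSpace K := metrizableSpaceMetric K
  exact exists_nat_bool_continuous_surjective_of_compact K

/-- a continuous surjection of the Cantor space onto `K` -/
def proj : (ℕ → Bool) → K := exists_pi.choose

lemma continuous_proj : Continuous proj := exists_pi.choose_spec.1

lemma surjective_proj : Function.Surjective proj := exists_pi.choose_spec.2

/-- an enumeration of the nodes -/
def e : ℕ ≃ List ℕ := (Denumerable.eqv (List ℕ)).symm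

/-- the weight on nodes: `φ_y` at the root, `1 + [t extends s]` at the other nodes -/
def U (bad : List ℕ → Set Y) (y : Y) (t : K) (s : List ℕ) : ℝ :=
  if s = [] then phi bad y t else 1 + ind (Ext s) t

lemma U_nil (bad : List ℕ → Set Y) (y : Y) (t : K) : U bad y t [] = phi bad y t := if_pos rfl

lemma U_of_ne (bad : List ℕ → Set Y) (y : Y) (t : K) {s : List ℕ} (hs : s ≠ []) :
    U bad y t s = 1 + ind (Ext s) t := if_neg hs

lemma zero_mem_Ext : (fun _ => ((0 : ℕ) : OnePoint ℕ) : K) ∈ Ext [0] := by
  rintro ⟨i, hi⟩
  have : i = 0 := by simpa using hi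
  subst this
  rfl

lemma a_le_one (s : List ℕ) : a s ≤ 1 :=
  (a_le_len s).trans (pow_le_one₀ (by norm_num) (by norm_num))

/-- the weight attached to `y` -/
def wt (bad : List ℕ → Set Y) (hb : ∀ s y, y ∈ bad (s ++ [0])) (y : Y) : Wt where
  V t n := U bad y (proj t) (e n)
  cont n := by
    by_cases hn : e n = []
    · simp only [hn, U_nil]
      exact (continuous_phi bad y).comp continuous_proj
    · simp only [U_of_ne bad y _ hn]
      exact continuous_const.add ((continuous_ind (isClopen_Ext _)).comp continuous_proj)
  nonneg t n := by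
    by_cases hn : e n = []
    · simp only [hn, U_nil]; exact phi_nonneg _ _ _
    · simp only [U_of_ne bad y _ hn]
      have := ind_nonneg (Ext (e n)) (proj t)
      linarith
  le t n := by
    by_cases hn : e n = []
    · simp only [hn, U_nil]
      have := phi_le_one bad y (proj t)
      linarith
    · simp only [U_of_ne bad y _ hn]
      have := ind_le (Ext (e n)) (proj t)
      linarith
  tm := (surjective_proj (fun _ => ((0 : ℕ) : OnePoint ℕ))).choose
  c := a [0]
  c_pos := a_pos _
  c_le n := by
    rw [(surjective_proj (fun _ => ((0 : ℕ) : OnePoint ℕ))).choose_spec]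
    by_cases hn : e n = []
    · simp only [hn, U_nil]
      exact le_phi (hb [] y) zero_mem_Ext
    · simp only [U_of_ne bad y _ hn]
      have := ind_nonneg (Ext (e n)) (fun _ => ((0 : ℕ) : OnePoint ℕ))
      have := a_le_one [0]
      linarith

variable (bad : List ℕ → Set Y) (hb : ∀ s y, y ∈ bad (s ++ [0]))

lemma wt_V (y : Y) (t : ℕ → Bool) (n : ℕ) : (wt bad hb y).V t n = U bad y (proj t) (e n) := rfl

lemma wt_c (y : Y) : (wt bad hb y).c = a [0] := rfl

/-- continuity estimate -/
lemma norm_J_sub_le (y y' : Y) (g : L1) :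
    ‖(wt bad hb y).J g - (wt bad hb y').J g‖ ≤ delta bad y y' * ‖g‖ := by
  rw [ContinuousMap.norm_le _ (mul_nonneg (delta_nonneg _ _ _) (norm_nonneg _))]
  intro t
  rw [ContinuousMap.sub_apply, Wt.J_apply, Wt.J_apply, norm_mulV_sub, norm_L1,
    ← integral_const_mul]
  have hi : Integrable (fun r => ((wt bad hb y).V t (N r) - (wt bad hb y').V t (N r)) * g r)
      (volume : Measure unitInterval) := by
    have := ((wt bad hb y).integrable_V t g).sub ((wt bad hb y').integrable_V t g)
    refine this.congr (Eventually.of_forall fun r => ?_)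
    simp only [Pi.sub_apply]
    ring
  refine integral_mono hi.abs ((L1.integrable_coeFn g).abs.const_mul _) fun r => ?_
  show |((wt bad hb y).V t (N r) - (wt bad hb y').V t (N r)) * g r| ≤ delta bad y y' * |g r|
  rw [abs_mul]
  refine mul_le_mul_of_nonneg_right ?_ (abs_nonneg _)
  rw [wt_V, wt_V]
  by_cases hn : e (N r) = []
  · rw [hn, U_nil, U_nil]
    exact abs_phi_sub_le bad y y' _
  · rw [U_of_ne _ _ _ hn, U_of_ne _ _ _ hn, sub_self, abs_zero]
    exact delta_nonneg _ _ _

lemma infDist_le (x : CC) (y y' : Y) :
    Metric.infDist x ((wt bad hb y).F.carrier : Set CC) ≤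
      Metric.infDist x ((wt bad hb y').F.carrier : Set CC) +
        delta bad y y' * ((2 * ‖x‖ + 1) / a [0]) := by
  have hne : (((wt bad hb y').F.carrier : Set CC)).Nonempty :=
    ⟨0, (wt bad hb y').F.carrier.zero_mem⟩
  refine le_of_forall_pos_le_add fun ε hε => ?_
  obtain ⟨h', hh', hd⟩ := (Metric.infDist_lt_iff (x := x) hne).1
    (show Metric.infDist x ((wt bad hb y').F.carrier : Set CC) <
      Metric.infDist x ((wt bad hb y').F.carrier : Set CC) + min ε 1 by
        have : 0 < min ε 1 := lt_min hε one_pos
        linarith)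
  obtain ⟨g, rfl⟩ := (wt bad hb y').mem_F.1 hh'
  have h0 : Metric.infDist x ((wt bad hb y').F.carrier : Set CC) ≤ ‖x‖ := by
    have := Metric.infDist_le_dist_of_mem (x := x) (wt bad hb y').F.carrier.zero_mem
    rwa [dist_zero_right] at this
  have h1 : ‖(wt bad hb y').J g‖ ≤ 2 * ‖x‖ + 1 := by
    have e1 : ‖(wt bad hb y').J g‖ ≤ ‖x‖ + dist x ((wt bad hb y').J g) := by
      rw [dist_eq_norm]
      have := norm_sub_le x (x - (wt bad hb y').J g)
      rwa [sub_sub_cancel] at this
    have e2 := min_le_right ε 1
    linarith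
  have h2 : ‖g‖ ≤ (2 * ‖x‖ + 1) / a [0] := by
    rw [le_div_iff₀ (a_pos _), mul_comm]
    exact ((wt bad hb y').le_norm_J g).trans h1
  have h3 := norm_J_sub_le bad hb y y' g
  have h4 : dist x ((wt bad hb y).J g) ≤
      dist x ((wt bad hb y').J g) + dist ((wt bad hb y').J g) ((wt bad hb y).J g) :=
    dist_triangle _ _ _
  rw [dist_comm ((wt bad hb y').J g), dist_eq_norm ((wt bad hb y).J g)] at h4
  have h5 := Metric.infDist_le_dist_of_mem (x := x) ((wt bad hb y).J_mem g)
  have h6 := mul_le_mul_of_nonneg_left h2 (delta_nonneg bad y y')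
  have h7 := min_le_left ε 1
  linarith

/-- the family is continuous -/
lemma continuous_F (hbad : ∀ s, IsClopen (bad s)) : Continuous fun y => (wt bad hb y).F := by
  refine continuous_to fun x => ?_
  rw [continuous_iff_continuousAt]
  intro y₀
  rw [ContinuousAt, tendsto_iff_dist_tendsto_zero]
  have h1 : Tendsto (fun y => delta bad y y₀ * ((2 * ‖x‖ + 1) / a [0])) (𝓝 y₀) (𝓝 0) := by
    have := ((continuous_delta hbad y₀).mul_const ((2 * ‖x‖ + 1) / a [0])).tendsto y₀
    simpa [delta_self] using this
  refine squeeze_zero (fun _ => dist_nonneg) (fun y => ?_) h1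
  rw [Real.dist_eq, abs_sub_le_iff]
  constructor
  · have := infDist_le bad hb x y y₀
    linarith
  · have := infDist_le bad hb x y₀ y
    rw [delta_comm] at this
    linarith

/-- no good branch: the sublattice is strictly monotone -/
lemma F_mem_STM {y : Y} (hy : ∀ x : ℕ → ℕ, ∃ n, y ∈ bad (pre x n)) :
    (wt bad hb y).F ∈ STM CC := by
  refine Wt.mem_STM _ (e.symm []) ?_ ?_
  · intro t n hn
    have hn' : e n ≠ [] := by
      intro h
      apply hn
      rw [← h, Equiv.symm_apply_apply]
    rw [wt_V, U_of_ne _ _ _ hn']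
    have := ind_nonneg (Ext (e n)) (proj t)
    linarith
  · intro t₀ h0
    rw [wt_V, Equiv.apply_symm_apply, U_nil] at h0
    set t := proj t₀ with ht
    -- all the prefixes are good
    have hgood : ∀ s, t ∈ Ext s → y ∉ bad s := by
      intro s hs hbs
      have := le_phi hbs hs
      have := a_pos s
      linarith
    -- some entry is infinite
    have hinf : ∃ n, t n = OnePoint.infty := by
      by_contra hcon
      push Not at hcon
      have : ∀ n, ∃ k : ℕ, ((k : ℕ) : OnePoint ℕ) = t n := fun n =>
        OnePoint.ne_infty_iff_exists.1 (hcon n)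
      choose x hx using this
      obtain ⟨n, hn⟩ := hy x
      refine hgood (pre x n) ?_ hn
      intro i
      rw [← hx]
      congr 1
      exact (getElem_pre x n i i.2).symm
    set n := Nat.find hinf with hn
    have hninf : t n = OnePoint.infty := Nat.find_spec hinf
    have hfin : ∀ i < n, ∃ k : ℕ, ((k : ℕ) : OnePoint ℕ) = t i := fun i hi =>
      OnePoint.ne_infty_iff_exists.1 (Nat.find_min hinf hi)
    have hx : ∃ x : ℕ → ℕ, ∀ i < n, ((x i : ℕ) : OnePoint ℕ) = t i := by
      refine ⟨fun i => if h : i < n then (hfin i h).choose else 0, fun i hi => ?_⟩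
      simp only [hi, dif_pos]
      exact (hfin i hi).choose_spec
    obtain ⟨x, hx⟩ := hx
    set t' : K := Function.update t n ((0 : ℕ) : OnePoint ℕ) with ht'
    obtain ⟨t₁, ht₁⟩ := surjective_proj t'
    refine ⟨t₁, ?_, ?_⟩
    · intro m
      rw [wt_V, wt_V, ht₁]
      by_cases hm : e m = []
      · rw [hm, U_nil, U_nil, h0]
        exact phi_nonneg _ _ _
      · rw [U_of_ne _ _ _ hm, U_of_ne _ _ _ hm]
        by_cases hmt : t ∈ Ext (e m)
        · have : t' ∈ Ext (e m) := by
            intro i
            have h1 := hmt i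
            have h2 : (i : ℕ) ≠ n := by
              intro h
              rw [h, hninf] at h1
              exact OnePoint.infty_ne_coe _ h1
            rw [ht', Function.update_of_ne h2]
            exact h1
          rw [ind_of_mem hmt, ind_of_mem this]
        · rw [ind_of_notMem hmt]
          have := ind_nonneg (Ext (e m)) t'
          linarith
    · rw [wt_V, Equiv.apply_symm_apply, U_nil, ht₁]
      refine lt_of_lt_of_le (a_pos (pre x n ++ [0])) (le_phi (hb _ _) ?_)
      intro i
      have hlen : (pre x n ++ [0]).length = n + 1 := by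
        rw [List.length_append, length_pre]; rfl
      have hi : (i : ℕ) < n + 1 := lt_of_lt_of_eq i.2 hlen
      rcases Nat.lt_succ_iff_lt_or_eq.1 hi with h | h
      · have h1 : (i : ℕ) < (pre x n).length := by rw [length_pre]; exact h
        rw [ht', Function.update_of_ne h.ne, ← hx i h]
        congr 1
        show x i = (pre x n ++ [0])[(i : ℕ)]
        rw [List.getElem_append_left h1, getElem_pre]
      · rw [ht', h, Function.update_self]
        congr 1
        show 0 = (pre x n ++ [0])[(i : ℕ)]
        rw [List.getElem_append_right (by rw [length_pre]; exact h.ge)]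
        simp

/-- a good branch: the sublattice is not strictly monotone -/
lemma F_notMem_STM {y : Y} {x : ℕ → ℕ} (hy : ∀ n, y ∉ bad (pre x n)) :
    (wt bad hb y).F ∉ STM CC := by
  set τ : K := fun n => ((x n : ℕ) : OnePoint ℕ) with hτ
  obtain ⟨t₀, ht₀⟩ := surjective_proj τ
  have hτE : ∀ s, τ ∈ Ext s → s = pre x s.length := by
    intro s hs
    apply List.ext_getElem
    · rw [length_pre]
    · intro i h1 h2
      rw [getElem_pre]
      have := hs ⟨i, h1⟩
      exact (OnePoint.coe_injective this).symm
  have hEτ : ∀ n, τ ∈ Ext (pre x n) := by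
    intro n i
    show ((x i : ℕ) : OnePoint ℕ) = (((pre x n)[i] : ℕ) : OnePoint ℕ)
    congr 1
    exact (getElem_pre x n i i.2).symm
  have hτ0 : phi bad y τ = 0 := by
    suffices hz : ∀ s, a s * ind (bad s) y * ind (Ext s) τ = 0 by
      unfold phi
      simp_rw [hz]
      exact tsum_zero
    intro s
    by_cases hs : τ ∈ Ext s
    · have : y ∉ bad s := by rw [hτE s hs]; exact hy _
      rw [ind_of_notMem this, mul_zero, zero_mul]
    · rw [ind_of_notMem hs, mul_zero]
  -- the coefficients
  set X' : List ℕ → ℝ := fun s => if s = pre x s.length then (1 / 2) ^ s.length else 0 with hX'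
  have hX'0 : ∀ s, 0 ≤ X' s := by
    intro s; simp only [hX']; split_ifs <;> positivity
  have hpinj : Function.Injective (pre x) := by
    intro m n h
    have := congrArg List.length h
    rwa [length_pre, length_pre] at this
  have hX's : Summable X' := by
    rw [← hpinj.summable_iff]
    · have : X' ∘ pre x = fun n => (1 / 2 : ℝ) ^ n := by
        ext n
        simp [hX', length_pre]
      rw [this]
      exact summable_geometric_two
    · intro s hs
      simp only [hX']
      rw [if_neg]
      intro h
      exact hs ⟨s.length, h.symm⟩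
  set X : ℕ → ℝ := fun n => X' (e n) with hX
  have hXs : Summable X := (e.summable_iff (f := X')).2 hX's
  have hX0 : ∀ n, 0 ≤ X n := fun n => hX'0 _
  refine Wt.not_mem_STM _ (e.symm []) t₀ ?_ X hXs hX0 ?_ ?_
  · rw [wt_V, Equiv.apply_symm_apply, U_nil, ht₀]
    exact hτ0
  · simp only [hX, Equiv.apply_symm_apply, hX']
    rw [if_pos (by simp [pre])]
    positivity
  · intro t₁
    set t := proj t₁ with ht
    have hU3 : ∀ (u : K) (s : List ℕ), 0 ≤ U bad y u s ∧ U bad y u s ≤ 3 := by
      intro u s
      by_cases hs : s = []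
      · rw [hs, U_nil]
        exact ⟨phi_nonneg _ _ _, by linarith [phi_le_one bad y u]⟩
      · rw [U_of_ne _ _ _ hs]
        constructor <;> linarith [ind_nonneg (Ext s) u, ind_le (Ext s) u]
    have hsum : ∀ u : K, Summable fun s => X' s * U bad y u s := by
      intro u
      refine Summable.of_nonneg_of_le (fun s => mul_nonneg (hX'0 s) (hU3 u s).1) (fun s => ?_)
        (hX's.mul_left 3)
      rw [mul_comm]
      exact mul_le_mul_of_nonneg_right (hU3 u s).2 (hX'0 s)
    have hl : ∀ t₂, ∑' n, X n * (wt bad hb y).V t₂ n = ∑' s, X' s * U bad y (proj t₂) s := by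
      intro t₂
      exact e.tsum_eq (fun s => X' s * U bad y (proj t₂) s)
    rw [hl, hl, ht₀, ← ht, ← sub_nonneg, ← (hsum τ).tsum_sub (hsum t)]
    -- the terms with nonempty index are nonnegative
    have hterm : ∀ s, s ≠ [] → 0 ≤ X' s * U bad y τ s - X' s * U bad y t s := by
      intro s hs
      rw [← mul_sub]
      by_cases hsx : s = pre x s.length
      · refine mul_nonneg (hX'0 s) ?_
        rw [U_of_ne _ _ _ hs, U_of_ne _ _ _ hs]
        have h1 : τ ∈ Ext s := by rw [hsx]; exact hEτ _
        rw [ind_of_mem h1]
        linarith [ind_le (Ext s) t]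
      · simp only [hX', if_neg hsx, zero_mul, le_refl]
    by_cases htt : t = τ
    · rw [htt]
      simp
    · have hne : ∃ n, t n ≠ τ n := by
        by_contra hcon
        push Not at hcon
        exact htt (funext hcon)
      set n := Nat.find hne with hn
      have hn1 : t n ≠ τ n := Nat.find_spec hne
      have hn2 : ∀ i < n, t i = τ i := fun i hi => not_not.1 (Nat.find_min hne hi)
      have hphi : phi bad y t ≤ (1 / 2) ^ (n + 1) := by
        refine phi_le n fun s hs hbs => ?_
        by_contra hcon
        have hlen : s.length ≤ n := not_lt.1 hcon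
        have : τ ∈ Ext s := by
          intro i
          rw [← hn2 i (lt_of_lt_of_le i.2 hlen)]
          exact hs i
        rw [hτE s this] at hbs
        exact hy _ hbs
      have hnn : pre x (n + 1) ≠ [] := by
        intro h
        have := congrArg List.length h
        rw [length_pre] at this
        simp at this
      have hdiff : Summable fun s => X' s * U bad y τ s - X' s * U bad y t s :=
        (hsum τ).sub (hsum t)
      have hfs := hdiff.sum_le_tsum {[], pre x (n + 1)} (fun s hs => by
        apply hterm
        intro h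
        apply hs
        simp [h])
      refine le_trans ?_ hfs
      rw [Finset.sum_pair hnn.symm]
      have e1 : X' [] = 1 := by simp [hX', pre]
      have e2 : X' (pre x (n + 1)) = (1 / 2) ^ (n + 1) := by
        simp only [hX', length_pre, if_true]
      have e3 : t ∉ Ext (pre x (n + 1)) := by
        intro h
        apply hn1
        have h1 := h ⟨n, by rw [length_pre]; omega⟩
        rw [hτ]
        refine h1.trans ?_
        congr 1
        exact getElem_pre x (n + 1) n _
      rw [e1, e2, U_nil, U_nil, hτ0, U_of_ne _ _ _ hnn, U_of_ne _ _ _ hnn,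
        ind_of_mem (hEτ _), ind_of_notMem e3]
      linarith

/-- the reduction -/
theorem hard (Y : Type) [TopologicalSpace Y] [PolishSpace Y]
    (hY : IsTopologicalBasis {U : Set Y | IsClopen U}) (B : Set Y) (hB : AnalyticSet Bᶜ) :
    ∃ f : Y → Subl CC, Continuous f ∧ f ⁻¹' (STM CC) = B := by
  obtain ⟨bad, h1, h2, h3, h4⟩ := exists_tree hY hB
  refine ⟨fun y => (wt bad h4 y).F, continuous_F bad h4 h1, ?_⟩
  ext y
  constructor
  · intro hy
    by_contra hcon
    obtain ⟨x, hx⟩ := h2 y hcon
    exact F_notMem_STM bad h4 hx hy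
  · intro hy
    apply F_mem_STM
    intro x
    by_contra hcon
    push Not at hcon
    exact h3 y ⟨x, hcon⟩ hy

end

end Q164.SM
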